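import Pool.Agent.U174.AO.Stm

/-!
Project AO (helper174), package STEP: one step of the back and forth.
-/

set_option autoImplicit false

namespace Pool.Agent.U678.AO

open IsLocalRing Pool.Agent.U174.AK Pool.Agent.U174.AO

section Sign

variable {K : Type} [Field K] {P : Set K}

theorem one_mem (hP : Cone P) : (1 : K) ∈ P := by
  rcases hP.tot 1 one_ne_zero with h | h
  · exact h
  · have := hP.mul _ h _ h
    rwa [neg_mul_neg, mul_one] at this

theorem neg_notMem (hP : Cone P) {x : K} (hx : x ∈ P) : -x ∉ P := by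
  intro h
  have := hP.add _ hx _ h
  rw [add_neg_cancel] at this
  exact hP.zero this

open scoped Classical in
/-- the sign -/
noncomputable def sg (P : Set K) (x : K) : ℤˣ := if x ∈ P then 1 else -1

theorem sg_pos {x : K} (h : x ∈ P) : sg P x = 1 := if_pos h

theorem sg_neg {x : K} (h : x ∉ P) : sg P x = -1 := if_neg h

theorem sg_iff {x : K} : sg P x = 1 ↔ x ∈ P := by
  constructor
  · intro h
    by_contra h1
    rw [sg_neg h1] at h
    exact absurd h (by decide)
  · exact sg_pos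

theorem sg_mul (hP : Cone P) {x y : K} (hx : x ≠ 0) (hy : y ≠ 0) :
    sg P (x * y) = sg P x * sg P y := by
  by_cases h1 : x ∈ P
  · by_cases h2 : y ∈ P
    · rw [sg_pos h1, sg_pos h2, sg_pos (hP.mul _ h1 _ h2), mul_one]
    · have h3 := (hP.tot y hy).resolve_left h2
      have h4 := hP.mul _ h1 _ h3
      rw [mul_neg] at h4
      have h5 := neg_notMem hP h4
      rw [neg_neg] at h5
      rw [sg_pos h1, sg_neg h2, sg_neg h5, one_mul]
  · have h3 := (hP.tot x hx).resolve_left h1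
    by_cases h2 : y ∈ P
    · have h4 := hP.mul _ h3 _ h2
      rw [neg_mul] at h4
      have h5 := neg_notMem hP h4
      rw [neg_neg] at h5
      rw [sg_neg h1, sg_pos h2, sg_neg h5, mul_one]
    · have h4 := hP.mul _ h3 _ ((hP.tot y hy).resolve_left h2)
      rw [neg_mul_neg] at h4
      rw [sg_neg h1, sg_neg h2, sg_pos h4]
      rfl

/-- the sign as a homomorphism -/
noncomputable def sgH (hP : Cone P) : Kˣ →* ℤˣ :=
  MonoidHom.mk' (fun u => sg P (u : K)) fun a b => by
    rw [Units.val_mul, sg_mul hP a.ne_zero b.ne_zero]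

theorem sgH_apply (hP : Cone P) (u : Kˣ) : sgH hP u = sg P (u : K) := rfl

/-- signs as units of the field -/
noncomputable def cst (K : Type) [Field K] : ℤˣ →* Kˣ := Units.map (Int.castRingHom K : ℤ →* K)

theorem sgH_cst (hP : Cone P) (e : ℤˣ) : sgH hP (cst K e) = e := by
  rw [sgH_apply]
  rcases Int.units_eq_one_or e with h | h
  · subst h
    rw [map_one, Units.val_one, sg_pos (one_mem hP)]
  · subst h
    have h1 : ((cst K (-1) : Kˣ) : K) = -1 := by simp [cst]
    rw [h1, sg_neg (neg_notMem hP (one_mem hP))]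

theorem val_cst (V : ValuationSubring K) (e : ℤˣ) : V.valuation ((cst K e : Kˣ) : K) = 1 := by
  rcases Int.units_eq_one_or e with h | h
  · subst h
    rw [map_one, Units.val_one, map_one]
  · subst h
    have h1 : ((cst K (-1) : Kˣ) : K) = -1 := by simp [cst]
    rw [h1, Valuation.map_neg, map_one]

end Sign

section Emb

variable {F F' N : Type} [Field F] [Field F'] [Field N] {OF : ValuationSubring F}
  {O' : ValuationSubring F'} {V : ValuationSubring N}

theorem val_comp (ι : VEmb OF O') (i' : VEmb O' V) (i : VEmb OF V)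
    (h : ∀ x, i'.f (ι.f x) = i.f x) (γ : OF.ValueGroup) : i'.val (ι.val γ) = i.val γ := by
  obtain ⟨x, rfl⟩ := OF.valuation_surjective γ
  rw [ι.val_valuation, i'.val_valuation, i.val_valuation, h]

theorem rs_surj (O : ValuationSubring F) (r : ResidueField O) : ∃ x, rs O x = r := by
  obtain ⟨x, hx⟩ := residue_surjective (R := O) r
  refine ⟨x.1, ?_⟩
  unfold rs
  rw [dif_pos x.2]
  exact hx

theorem res_comp (ι : VEmb OF O') (i' : VEmb O' V) (i : VEmb OF V)
    (h : ∀ x, i'.f (ι.f x) = i.f x) (r : ResidueField OF) : i'.res (ι.res r) = i.res r := by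
  obtain ⟨x, rfl⟩ := rs_surj OF r
  rw [ι.res_rs, i'.res_rs, i.res_rs, h]

/-- the map of the groups of units -/
noncomputable def um (ι : VEmb OF O') : OF.ValueGroupˣ →* O'.ValueGroupˣ :=
  Units.map (ι.val : OF.ValueGroup →* O'.ValueGroup)

theorem um_inj (ι : VEmb OF O') : Function.Injective (um ι) := by
  intro a b h
  apply Units.ext
  exact ι.val_strictMono.injective (congrArg Units.val h)

theorem val_um (ι : VEmb OF O') (a : OF.ValueGroupˣ) :
    ((um ι a : O'.ValueGroupˣ) : O'.ValueGroup) = ι.val a := rfl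

end Emb

theorem t_STEP (hN : S_NICE) (hS : S_SEC) (hL : S_LTS) (hG : S_SGN) : S_STEP := by
  intro N _ V hV hE P1 P2 hP1 hP2 F _ OF s i j hpos a
  obtain ⟨F', _, O', s', ι, i', cF', hen', sec', hι, hs, ha, pur'⟩ :=
    hN F N OF V s i hpos.cnt hpos.sec hV hpos.puri (fun _ => a)
  have hchar' : CharZero (ResidueField O') := by
    have := hV.char
    exact RingHom.charZero i'.res
  have hcG0 : Countable O'.ValueGroup := O'.valuation_surjective.countable
  have hcG : Countable O'.ValueGroupˣ := Units.val_injective.countable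
  have hvc : ∀ γ, i'.val (ι.val γ) = i.val γ := val_comp ι i' i hι
  -- purity
  have hpure : ∀ (γ : O'.ValueGroupˣ) (m : ℕ), 0 < m → γ ^ m ∈ (um ι).range → γ ∈ (um ι).range := by
    rintro γ m hm ⟨δ, hδ⟩
    have h1 : (i'.val (γ : O'.ValueGroup)) ^ m = i.val (δ : OF.ValueGroup) := by
      rw [← hvc, ← map_pow, ← val_um, hδ, Units.val_pow_eq_pow_val]
    obtain ⟨g, hg⟩ := hpos.puri _ m hm ⟨_, h1.symm⟩
    rw [← hvc] at hg
    have h2 := i'.val_strictMono.injective hg
    have h3 : g ≠ 0 := by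
      rintro rfl
      rw [map_zero] at h2
      exact γ.ne_zero h2.symm
    exact ⟨Units.mk0 g h3, Units.ext h2⟩
  let e : OF.ValueGroupˣ ≃* (um ι).range := MonoidHom.ofInjective (um_inj ι)
  have he : ∀ g, ((e g : (um ι).range) : O'.ValueGroupˣ) = um ι g := fun g => rfl
  let t₀ : (um ι).range →* Nˣ := ((Units.map (j.f : F →* N)).comp s).comp e.symm.toMonoidHom
  have ht₀ : ∀ g, ((t₀ (e g) : Nˣ) : N) = j.f ((s g : Fˣ) : F) := by
    intro g
    change j.f ((s (e.symm (e g)) : Fˣ) : F) = _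
    rw [MulEquiv.symm_apply_apply]
  have hval₀ : ∀ h : (um ι).range, V.valuation ((t₀ h : Nˣ) : N) =
      ((Units.map (i'.val : O'.ValueGroup →* V.ValueGroup) h : V.ValueGroupˣ) : V.ValueGroup) := by
    intro h
    obtain ⟨g, rfl⟩ := e.surjective h
    rw [ht₀, ← j.val_valuation, hpos.sec, ← hpos.val, ← hvc]
    rfl
  obtain ⟨t0, ht0, ht0v⟩ := hS N V hV.sat O'.ValueGroupˣ hcG (um ι).range hpure
    (Units.map (i'.val : O'.ValueGroup →* V.ValueGroup)) t₀ hval₀
  -- signs
  let ε : O'.ValueGroupˣ →* ℤˣ :=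
    ((sgH hP1).comp ((Units.map (i'.f : F' →* N)).comp s')) * ((sgH hP2).comp t0)
  have hε : ∀ γ, ε γ = sg P1 (i'.f ((s' γ : F'ˣ) : F')) * sg P2 ((t0 γ : Nˣ) : N) := fun γ => rfl
  let t : O'.ValueGroupˣ →* Nˣ := ((cst N).comp ε) * t0
  have ht : ∀ γ, t γ = cst N (ε γ) * t0 γ := fun γ => rfl
  have hts : ∀ γ, sg P2 ((t γ : Nˣ) : N) = sg P1 (i'.f ((s' γ : F'ˣ) : F')) := by
    intro γ
    rw [← sgH_apply hP2, ht, map_mul, sgH_cst, hε, sgH_apply, mul_assoc]
    rcases Int.units_eq_one_or (sg P2 ((t0 γ : Nˣ) : N)) with h | h <;> rw [h] <;> simp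
  have htv : ∀ γ : O'.ValueGroupˣ, V.valuation ((t γ : Nˣ) : N) = i'.val γ := by
    intro γ
    rw [ht, Units.val_mul, map_mul, val_cst, one_mul, ht0v]
    rfl
  have hte : ∀ γ : OF.ValueGroupˣ, ((t (um ι γ) : Nˣ) : N) = j.f ((s γ : Fˣ) : F) := by
    intro γ
    have h1 : ((t0 (um ι γ) : Nˣ) : N) = j.f ((s γ : Fˣ) : F) := by
      have h2 := ht0 (e γ)
      rw [he] at h2
      rw [h2, ht₀]
    have h3 : ε (um ι γ) = 1 := by
      have h4 : i'.f ((s' (um ι γ) : F'ˣ) : F') = i.f ((s γ : Fˣ) : F) := by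
        rw [← hι]
        exact congrArg i'.f (hs γ)
      rw [hε, h1, h4]
      by_cases h5 : i.f ((s γ : Fˣ) : F) ∈ P1
      · rw [sg_pos h5, sg_pos ((hpos.sgn _).mp h5), mul_one]
      · rw [sg_neg h5, sg_neg (fun h6 => h5 ((hpos.sgn _).mpr h6))]
        rfl
    rw [ht, h3, map_one, one_mul, h1]
  obtain ⟨j', hj1, hj2, hj3, hj4⟩ := hL F F' N OF O' V s s' ι j i'.res i'.val cF' hen' hchar' hV
    i'.val_strictMono hpos.sec sec' hs (fun r => by rw [res_comp ι i' i hι, hpos.res])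
    (fun γ => by rw [hvc, hpos.val]) t htv hte
  refine ⟨F', _, O', s', ι.f, i', j', ⟨cF', sec', pur', ?_, fun γ => (hj3 γ).symm,
    fun r => (hj2 r).symm, ?_⟩, hι, hj1, ?_⟩
  · intro γ m hm h
    obtain ⟨g, hg⟩ := h
    obtain ⟨g', hg'⟩ := pur' γ m hm ⟨g, by rw [← hg, hj3]⟩
    exact ⟨g', by rw [← hg', hj3]⟩
  · intro x
    by_cases hx : x = 0
    · subst hx
      rw [map_zero, map_zero]
      exact ⟨fun h => absurd h hP1.zero, fun h => absurd h hP2.zero⟩
    · have hvx : O'.valuation x ≠ 0 := (Valuation.ne_zero_iff _).mpr hx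
      set γ : O'.ValueGroupˣ := Units.mk0 _ hvx with hγ
      set u : F' := x / ((s' γ : F'ˣ) : F') with hu
      have hs0 : ((s' γ : F'ˣ) : F') ≠ 0 := (s' γ).ne_zero
      have hxu : x = ((s' γ : F'ˣ) : F') * u := by rw [hu, mul_div_cancel₀ _ hs0]
      have hu0 : u ≠ 0 := div_ne_zero hx hs0
      have huv : O'.valuation u = 1 := by
        rw [hu, map_div₀, sec', hγ, Units.val_mk0, div_self hvx]
      have hi0 : ∀ {z : F'}, z ≠ 0 → i'.f z ≠ 0 := fun hz => (map_ne_zero i'.f).mpr hz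
      have hj0 : ∀ {z : F'}, z ≠ 0 → j'.f z ≠ 0 := fun hz => (map_ne_zero j'.f).mpr hz
      have hvi : V.valuation (i'.f u) = 1 := by rw [← i'.val_valuation, huv, map_one]
      have hvj : V.valuation (j'.f u) = 1 := by rw [← j'.val_valuation, huv, map_one]
      have hrs : rs V (i'.f u) = rs V (j'.f u) := by rw [← i'.res_rs, ← j'.res_rs, hj2]
      have h1 := hG N V hV.hen hV.char hE P1 hP1 (i'.f u) hvi
      have h2 := hG N V hV.hen hV.char hE P2 hP2 (j'.f u) hvj
      have h3 : sg P1 (i'.f u) = sg P2 (j'.f u) := by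
        have h4 : i'.f u ∈ P1 ↔ j'.f u ∈ P2 := by rw [h1, h2, hrs]
        by_cases h5 : i'.f u ∈ P1
        · rw [sg_pos h5, sg_pos (h4.mp h5)]
        · rw [sg_neg h5, sg_neg (fun h6 => h5 (h4.mpr h6))]
      rw [← sg_iff, ← sg_iff, hxu, map_mul, map_mul, sg_mul hP1 (hi0 hs0) (hi0 hu0),
        sg_mul hP2 (hj0 hs0) (hj0 hu0), h3, hj4, hts]
  · exact ha 0

end Pool.Agent.U678.AO
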